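import Pool.Agent.Run7.h773.CK.Crit

/-!
# `MP_7e5e3f_co`, question 1: `|corona(G)| + |ker(G)| ≤ 2 α(G) + k`

For every finite graph `G`, `|corona(G)| + |ker(G)| ≤ 2 α(G) + k`, where `k` is the number of odd cycles of
`G`; more strongly, `k` can be replaced by the least number `τ` of vertices which meet all odd cycles.
(By the starting result of this page the inequality fails if `k` is replaced by the largest number of
disjoint odd cycles.)

## Proof

Let `I` be any critical independent set.

* By Hall's theorem there is a matching of `N(I)` into `I` (`exists_matching`), so every independent set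
  has at most `|I|` elements in `X = I ∪ N(I)` (`card_inter_le`). An independent set outside `X` can be
  united with `I`, so it has at most `α(G) - |I|` elements (`card_out_le`). Hence every maximum
  independent set `S` has exactly `|I|` elements in `X` (`max_eq`), and it follows that `S ∩ I` is again
  critical (`critical_inter`).
* If `u ∈ N(I) ∩ S` is matched to `v ∈ I` then `v` is not in the critical set `S ∩ I`, so `v ∉ ker(G)`. Thus
  `|corona(G) ∩ N(I)| ≤ |I| - |ker(G)|` and `|corona(G) ∩ X| + |ker(G)| ≤ 2 |I|`.
* Let `T` be a set of vertices which meets all odd cycles. The graph without `X` and `T` is bipartite, so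
  `|V - X| ≤ |T| + 2 (α(G) - |I|)` (`exists_half`).

Together `|corona(G)| + |ker(G)| ≤ 2 α(G) + |T|`. One vertex of every odd cycle gives such a set `T` with at
most `k` elements (`exists_transversal`).
-/

set_option autoImplicit false

namespace Pool.Agent.Results.MP_7e5e3f_co.AllOddCycles

open Run7.h773.CK

/-- **Corona plus ker.** For every finite graph `G`: `|corona(G)| + |ker(G)| ≤ 2 α(G) + k`, where `k` is the
number of odd cycles of `G`; and `|corona(G)| + |ker(G)| ≤ 2 α(G) + |T|` for every set `T` of vertices which
meets all odd cycles of `G`. -/
theorem result {V : Type*} [Fintype V] (G : SimpleGraph V) :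
    (corona G).ncard + (ker G).ncard ≤ 2 * G.indepNum + (oddCycles G).ncard ∧
    ∀ T : Finset V, MeetsOddCycles G T →
      (corona G).ncard + (ker G).ncard ≤ 2 * G.indepNum + T.card := by
  refine ⟨?_, fun T hT => main hT⟩
  obtain ⟨T, hT, hc⟩ := exists_transversal G
  have h := main hT
  omega

end Pool.Agent.Results.MP_7e5e3f_co.AllOddCycles
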